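import Mathlib

set_option autoImplicit false

open Finset
open scoped Classical

namespace Pool.Agent.LLG.H55

section weights

variable {α : Type*}

/-- Weight of the subset `ω` of `E` when each element is kept with probability `p`. -/
noncomputable def wt (p : ℝ) (E ω : Finset α) : ℝ := p ^ ω.card * (1 - p) ^ (E \ ω).card

/-- Expectation of `f` over random subsets of `E`. -/
noncomputable def ex (p : ℝ) (E : Finset α) (f : Finset α → ℝ) : ℝ :=
  ∑ ω ∈ E.powerset, wt p E ω * f ω

lemma wt_nonneg {p : ℝ} (h0 : 0 ≤ p) (h1 : p ≤ 1) (E ω : Finset α) : 0 ≤ wt p E ω := by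
  unfold wt
  have : 0 ≤ 1 - p := by linarith
  positivity

lemma ex_insert (p : ℝ) {E : Finset α} {e : α} (he : e ∉ E) (f : Finset α → ℝ) :
    ex p (insert e E) f = (1 - p) * ex p E f + p * ex p E (fun ω => f (insert e ω)) := by
  unfold ex
  rw [Finset.sum_powerset_insert he, Finset.mul_sum, Finset.mul_sum]
  congr 1
  · apply Finset.sum_congr rfl
    intro ω hω
    rw [Finset.mem_powerset] at hω
    have heω : e ∉ ω := fun h => he (hω h)
    have h1 : insert e E \ ω = insert e (E \ ω) := by
      rw [Finset.insert_sdiff_of_notMem _ heω]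
    have h2 : e ∉ E \ ω := fun h => he (Finset.mem_sdiff.mp h).1
    unfold wt
    rw [h1, Finset.card_insert_of_notMem h2, pow_succ]
    ring
  · apply Finset.sum_congr rfl
    intro ω hω
    rw [Finset.mem_powerset] at hω
    have heω : e ∉ ω := fun h => he (hω h)
    have h1 : insert e E \ insert e ω = E \ ω := by
      ext x
      simp only [Finset.mem_sdiff, Finset.mem_insert, not_or]
      constructor
      · rintro ⟨h | h, h2, h3⟩
        · exact absurd h h2
        · exact ⟨h, h3⟩
      · rintro ⟨h, h3⟩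
        exact ⟨Or.inr h, fun hx => he (hx ▸ h), h3⟩
    unfold wt
    rw [h1, Finset.card_insert_of_notMem heω, pow_succ]
    ring

lemma ex_const (p : ℝ) (E : Finset α) (c : ℝ) : ex p E (fun _ => c) = c := by
  induction E using Finset.induction_on with
  | empty => simp [ex, wt]
  | insert e E he ih =>
    rw [ex_insert p he, ih]
    ring

lemma ex_mono {p : ℝ} (h0 : 0 ≤ p) (h1 : p ≤ 1) {E : Finset α} {f g : Finset α → ℝ}
    (h : ∀ ω ⊆ E, f ω ≤ g ω) : ex p E f ≤ ex p E g := by
  unfold ex
  apply Finset.sum_le_sum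
  intro ω hω
  exact mul_le_mul_of_nonneg_left (h ω (Finset.mem_powerset.mp hω)) (wt_nonneg h0 h1 _ _)

lemma ex_congr {p : ℝ} {E : Finset α} {f g : Finset α → ℝ}
    (h : ∀ ω ⊆ E, f ω = g ω) : ex p E f = ex p E g := by
  unfold ex
  apply Finset.sum_congr rfl
  intro ω hω
  rw [h ω (Finset.mem_powerset.mp hω)]

lemma ex_sum {p : ℝ} {E : Finset α} {ι : Type*} (s : Finset ι) (f : ι → Finset α → ℝ) :
    ex p E (fun ω => ∑ i ∈ s, f i ω) = ∑ i ∈ s, ex p E (f i) := by
  unfold ex
  rw [Finset.sum_comm]
  apply Finset.sum_congr rfl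
  intro ω _
  rw [Finset.mul_sum]

lemma ex_mul (p : ℝ) (E : Finset α) (c : ℝ) (f : Finset α → ℝ) :
    ex p E (fun ω => c * f ω) = c * ex p E f := by
  unfold ex
  rw [Finset.mul_sum]
  apply Finset.sum_congr rfl
  intro ω _
  ring

lemma ex_add (p : ℝ) (E : Finset α) (f g : Finset α → ℝ) :
    ex p E (fun ω => f ω + g ω) = ex p E f + ex p E g := by
  unfold ex
  rw [← Finset.sum_add_distrib]
  apply Finset.sum_congr rfl
  intro ω _
  ring

/-- Factorisation: closed edges of `B`, arbitrary function of the part inside `A`. -/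
lemma ex_factor (p : ℝ) (A : Finset α) (g : Finset α → ℝ) (C : Finset α) :
    Disjoint A C → ∀ B ⊆ C, ex p (A ∪ C) (fun ω => if Disjoint ω B then g (ω ∩ A) else 0)
      = (1 - p) ^ B.card * ex p A g := by
  induction C using Finset.induction_on with
  | empty =>
    intro _ B hB
    have hB' : B = ∅ := Finset.subset_empty.mp hB
    subst hB'
    rw [Finset.union_empty, Finset.card_empty, pow_zero, one_mul]
    apply ex_congr
    intro ω hω
    rw [if_pos (Finset.disjoint_empty_right _), Finset.inter_eq_left.mpr hω]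
  | insert e C he ih =>
    intro hdis B hB
    have heA : e ∉ A := fun h => (Finset.disjoint_left.mp hdis h) (Finset.mem_insert_self _ _)
    have hdis' : Disjoint A C := Finset.disjoint_of_subset_right (Finset.subset_insert _ _) hdis
    have heAC : e ∉ A ∪ C := by
      rw [Finset.mem_union]
      exact fun h => h.elim heA he
    rw [Finset.union_insert, ex_insert p heAC]
    by_cases heB : e ∈ B
    · have h2 : ex p (A ∪ C) (fun ω => if Disjoint (insert e ω) B then g (insert e ω ∩ A) else 0) = 0 := by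
        refine (ex_congr ?_).trans (ex_const p (A ∪ C) 0)
        intro ω _
        show (if Disjoint (insert e ω) B then g (insert e ω ∩ A) else 0) = 0
        rw [if_neg]
        intro h
        exact (Finset.disjoint_left.mp h (Finset.mem_insert_self _ _)) heB
      have h3 : ex p (A ∪ C) (fun ω => if Disjoint ω B then g (ω ∩ A) else 0)
          = ex p (A ∪ C) (fun ω => if Disjoint ω (B.erase e) then g (ω ∩ A) else 0) := by
        apply ex_congr
        intro ω hω
        have heω : e ∉ ω := fun h => heAC (hω h)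
        have : Disjoint ω B ↔ Disjoint ω (B.erase e) := by
          rw [Finset.disjoint_left, Finset.disjoint_left]
          constructor
          · intro h x hx hx2
            exact h hx (Finset.mem_of_mem_erase hx2)
          · intro h x hx hx2
            exact h hx (Finset.mem_erase.mpr ⟨fun h' => heω (h' ▸ hx), hx2⟩)
        simp only [this]
      rw [h2, h3, ih hdis' (B.erase e)]
      · rw [mul_zero, add_zero, ← mul_assoc, ← pow_succ', Finset.card_erase_add_one heB]
      · intro x hx
        rcases Finset.mem_insert.mp (hB (Finset.mem_of_mem_erase hx)) with h | h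
        · exact absurd h (Finset.ne_of_mem_erase hx)
        · exact h
    · have hBC : B ⊆ C := by
        intro x hx
        rcases Finset.mem_insert.mp (hB hx) with h | h
        · exact absurd (h ▸ hx) heB
        · exact h
      have h2 : ex p (A ∪ C) (fun ω => if Disjoint (insert e ω) B then g (insert e ω ∩ A) else 0)
          = ex p (A ∪ C) (fun ω => if Disjoint ω B then g (ω ∩ A) else 0) := by
        apply ex_congr
        intro ω _
        rw [Finset.insert_inter_of_notMem heA]
        simp only [Finset.disjoint_insert_left, heB, not_false_eq_true, true_and]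
      rw [h2, ih hdis' B hBC]
      ring

lemma ex_disj (p : ℝ) {E B : Finset α} (hB : B ⊆ E) :
    ex p E (fun ω => if Disjoint ω B then (1 : ℝ) else 0) = (1 - p) ^ B.card := by
  have := ex_factor p ∅ (fun _ => (1 : ℝ)) E (Finset.disjoint_empty_left _) B hB
  rw [Finset.empty_union] at this
  rw [this, ex_const, mul_one]

lemma ex_sub (p : ℝ) (T : Finset α) (C : Finset α) :
    Disjoint T C → ex p (T ∪ C) (fun ω => if T ⊆ ω then (1 : ℝ) else 0) = p ^ T.card := by
  induction C using Finset.induction_on with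
  | empty =>
    intro _
    rw [Finset.union_empty]
    unfold ex
    rw [Finset.sum_eq_single T]
    · simp [wt]
    · intro ω hω hne
      show wt p T ω * (if T ⊆ ω then (1 : ℝ) else 0) = 0
      rw [if_neg, mul_zero]
      intro h
      exact hne (Finset.Subset.antisymm (Finset.mem_powerset.mp hω) h)
    · intro h
      exact absurd (Finset.mem_powerset_self T) h
  | insert e C he ih =>
    intro hdis
    have heA : e ∉ T := fun h => (Finset.disjoint_left.mp hdis h) (Finset.mem_insert_self _ _)
    have hdis' : Disjoint T C := Finset.disjoint_of_subset_right (Finset.subset_insert _ _) hdis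
    have heAC : e ∉ T ∪ C := by
      rw [Finset.mem_union]
      exact fun h => h.elim heA he
    rw [Finset.union_insert, ex_insert p heAC]
    have h2 : ex p (T ∪ C) (fun ω => if T ⊆ insert e ω then (1 : ℝ) else 0)
        = ex p (T ∪ C) (fun ω => if T ⊆ ω then (1 : ℝ) else 0) := by
      apply ex_congr
      intro ω _
      simp only [Finset.subset_insert_iff_of_notMem heA]
    rw [h2, ih hdis']
    ring

lemma ex_sub' (p : ℝ) {T E : Finset α} (h : T ⊆ E) :
    ex p E (fun ω => if T ⊆ ω then (1 : ℝ) else 0) = p ^ T.card := by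
  have := ex_sub p T (E \ T) Finset.disjoint_sdiff
  rwa [Finset.union_sdiff_of_subset h] at this

lemma ex_jensen {p : ℝ} (h0 : 0 ≤ p) (h1 : p ≤ 1) (E : Finset α) (f : Finset α → ℝ) :
    Real.exp (ex p E f) ≤ ex p E (fun ω => Real.exp (f ω)) := by
  have h := convexOn_exp.map_sum_le (t := E.powerset) (w := wt p E) (p := f)
    (fun ω _ => wt_nonneg h0 h1 _ _) ?_ (fun _ _ => Set.mem_univ _)
  · simpa [ex, smul_eq_mul] using h
  · have := ex_const p E 1
    simpa [ex] using this

end weights

section iter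

variable {α : Type*}

/-- `j` sprinkles of rate `p` and one of rate `q` on the ground set `E`, starting from `O`. -/
noncomputable def F (p q : ℝ) (E : Finset α) (χ : Finset α → ℝ) : ℕ → Finset α → ℝ
  | 0, O => ex q E (fun ω => χ (O ∪ ω))
  | j + 1, O => ex p E (fun ω => F p q E χ j (O ∪ ω))

lemma F_const (p q : ℝ) (E : Finset α) (c : ℝ) (j : ℕ) (O : Finset α) :
    F p q E (fun _ => c) j O = c := by
  induction j generalizing O with
  | zero => simp only [F]; exact ex_const _ _ _
  | succ j ih =>
    simp only [F, ih]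
    exact ex_const _ _ _

lemma F_sum (p q : ℝ) (E : Finset α) {ι : Type*} (s : Finset ι) (χ : ι → Finset α → ℝ) (j : ℕ)
    (O : Finset α) : F p q E (fun ω => ∑ i ∈ s, χ i ω) j O = ∑ i ∈ s, F p q E (χ i) j O := by
  induction j generalizing O with
  | zero => simp only [F]; exact ex_sum _ _
  | succ j ih =>
    simp only [F, ih]
    exact ex_sum _ _

lemma F_mono {p q : ℝ} (hp0 : 0 ≤ p) (hp1 : p ≤ 1) (hq0 : 0 ≤ q) (hq1 : q ≤ 1) {E : Finset α}
    {χ χ' : Finset α → ℝ} (h : ∀ ω ⊆ E, χ ω ≤ χ' ω) (j : ℕ) (O : Finset α) (hO : O ⊆ E) :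
    F p q E χ j O ≤ F p q E χ' j O := by
  induction j generalizing O with
  | zero =>
    simp only [F]
    exact ex_mono hq0 hq1 (fun ω hω => h _ (Finset.union_subset hO hω))
  | succ j ih =>
    simp only [F]
    exact ex_mono hp0 hp1 (fun ω hω => ih _ (Finset.union_subset hO hω))

/-- Factorisation of the iterated expectation. -/
lemma F_factor {p q : ℝ} (hp0 : 0 ≤ p) (hp1 : p ≤ 1) (hq0 : 0 ≤ q) (hq1 : q ≤ 1)
    {E A B : Finset α} (hA : A ⊆ E) (hB : B ⊆ E) (hAB : Disjoint A B)
    {χ χ' : Finset α → ℝ} (h : ∀ ω ⊆ E, Disjoint ω B → χ' (ω ∩ A) ≤ χ ω)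
    (hpos : ∀ ω ⊆ E, 0 ≤ χ ω) (j : ℕ) (O : Finset α) (hO : O ⊆ E) (hOB : Disjoint O B) :
    ((1 - p) ^ j * (1 - q)) ^ B.card * F p q A χ' j (O ∩ A) ≤ F p q E χ j O := by
  have key : ∀ (r : ℝ), 0 ≤ r → r ≤ 1 → ∀ (g g' : Finset α → ℝ) (c : ℝ) (O : Finset α), O ⊆ E →
      Disjoint O B → (∀ ω ⊆ E, Disjoint ω B → c * g' (ω ∩ A) ≤ g ω) → (∀ ω ⊆ E, 0 ≤ g ω) →
      ((1 - r) ^ B.card * c) * ex r A (fun ω => g' ((O ∩ A) ∪ ω)) ≤ ex r E (fun ω => g (O ∪ ω)) := by
    intro r hr0 hr1 g g' c O hO hOB hg hg0
    have hE : A ∪ (E \ A) = E := Finset.union_sdiff_of_subset hA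
    have hBE : B ⊆ E \ A := fun x hx => Finset.mem_sdiff.mpr ⟨hB hx, fun h' =>
      Finset.disjoint_left.mp hAB h' hx⟩
    have h1 := ex_factor r A (fun ω => c * g' ((O ∩ A) ∪ ω)) (E \ A) Finset.disjoint_sdiff B hBE
    rw [hE] at h1
    have h2 : ((1 - r) ^ B.card * c) * ex r A (fun ω => g' ((O ∩ A) ∪ ω))
        = (1 - r) ^ B.card * ex r A (fun ω => c * g' ((O ∩ A) ∪ ω)) := by
      rw [ex_mul]; ring
    rw [h2, ← h1]
    apply ex_mono hr0 hr1
    intro ω hω
    have hsub : O ∪ ω ⊆ E := Finset.union_subset hO hω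
    by_cases hd : Disjoint ω B
    · rw [if_pos hd]
      have h3 := hg (O ∪ ω) hsub (Finset.disjoint_union_left.mpr ⟨hOB, hd⟩)
      have h4 : (O ∪ ω) ∩ A = (O ∩ A) ∪ (ω ∩ A) := Finset.union_inter_distrib_right _ _ _
      rwa [h4] at h3
    · rw [if_neg hd]
      exact hg0 _ hsub
  have hFpos : ∀ (j : ℕ) (O : Finset α), O ⊆ E → 0 ≤ F p q E χ j O := by
    intro j O hO
    have := F_mono hp0 hp1 hq0 hq1 (χ := fun _ => (0 : ℝ)) (χ' := χ) (fun ω hω => hpos ω hω) j O hO
    rwa [F_const] at this
  induction j generalizing O with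
  | zero =>
    simp only [F]
    have := key q hq0 hq1 χ χ' 1 O hO hOB (fun ω hω hd => by rw [one_mul]; exact h ω hω hd) hpos
    simpa using this
  | succ j ih =>
    simp only [F]
    have := key p hp0 hp1 (F p q E χ j) (F p q A χ' j) (((1 - p) ^ j * (1 - q)) ^ B.card) O hO hOB
      (fun ω hω hd => ih ω hω hd) (fun ω hω => hFpos j ω hω)
    refine le_trans (le_of_eq ?_) this
    rw [← mul_pow]
    congr 1
    rw [← mul_assoc, ← pow_succ']

end iter

end Pool.Agent.LLG.H55
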